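import Mathlib
import Pool.Agent.H767R2.Charac
import Pool.Agent.H767R2.Final379

set_option autoImplicit false

/-!
# `𝒵_{|𝒫| - 1}` is characteristic for every family `𝒫` on every Weyl system

Full positive answer to Q1: `d^W_min(𝒫) ≤ |𝒫| - 1` for every essentially distinct family `𝒫` of
integer polynomials with `|𝒫| ≥ 2`.
-/

namespace Pool.Agent.Results.MP_467fc0_an.WeylCharacteristicFactor

open Pool.Agent.H767R2 MeasureTheory Filter Topology Polynomial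
open scoped ENNReal

/-- Let `𝒫` be an essentially distinct family of `ℓ ≥ 2` integer polynomials. Then
`d^W_min(𝒫) ≤ ℓ - 1`. In detail: on every Weyl system (ergodic or not) the Host–Kra factor
`𝒵_{ℓ-1}` exists, it is characteristic for the averages `A_N` of `𝒫`, and `A_N → 0` in `L²`
whenever `|||f_p|||_ℓ = 0` for some `p ∈ 𝒫`. -/
theorem result (P : Finset ℤ[X]) (hP : EssentiallyDistinct P) (h2 : 2 ≤ P.card) :
    dWMin P ≤ ((P.card - 1 : ℕ) : ℕ∞) ∧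
    ∀ W : WeylSystem,
      (∃ 𝒵 : MeasurableSpace (Fin W.D → UnitAddCircle), IsHKFactor 𝒵 (haarT W.D) W.T (P.card - 1)) ∧
      (∀ 𝒵 : MeasurableSpace (Fin W.D → UnitAddCircle),
        IsHKFactor 𝒵 (haarT W.D) W.T (P.card - 1) → IsCharacteristic 𝒵 (haarT W.D) W.T P) ∧
      ∀ f : ℤ[X] → (Fin W.D → UnitAddCircle) → ℂ, (∀ p ∈ P, MemLp (f p) ∞ (haarT W.D)) →
        (∃ p ∈ P, hk (haarT W.D) W.T (P.card - 1) (f p) = 0) →
        Tendsto (fun N : ℕ => eLpNorm (polyAvg W.T P f N) 2 (haarT W.D)) atTop (𝓝 0) := by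
  classical
  have hW : ∀ W : WeylSystem,
      (∃ 𝒵 : MeasurableSpace (Fin W.D → UnitAddCircle), IsHKFactor 𝒵 (haarT W.D) W.T (P.card - 1)) ∧
      (∀ 𝒵 : MeasurableSpace (Fin W.D → UnitAddCircle),
        IsHKFactor 𝒵 (haarT W.D) W.T (P.card - 1) → IsCharacteristic 𝒵 (haarT W.D) W.T P) ∧
      ∀ f : ℤ[X] → (Fin W.D → UnitAddCircle) → ℂ, (∀ p ∈ P, MemLp (f p) ∞ (haarT W.D)) →
        (∃ p ∈ P, hk (haarT W.D) W.T (P.card - 1) (f p) = 0) →
        Tendsto (fun N : ℕ => eLpNorm (polyAvg W.T P f N) 2 (haarT W.D)) atTop (𝓝 0) := by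
    intro W
    refine ⟨W.exists_hkFactor _, fun 𝒵 h => characteristic_card_sub_one P hP h2 W 𝒵 h,
      fun f hf ⟨p, hp, h0⟩ => ?_⟩
    exact seminorm_form W P (fun p => p) h2 (fun p hp => hP.1 p hp)
      (fun p hp q hq h => hP.2 p hp q hq h) f (fun p => (eLpNorm (f p) ∞ (haarT W.D)).toReal)
      (fun p hp => bd_of_memLp_top (hf p hp)) p hp h0
  refine ⟨?_, hW⟩
  refine iInf₂_le (P.card - 1) fun W => ?_
  obtain ⟨⟨𝒵, h𝒵⟩, h, _⟩ := hW W
  exact ⟨𝒵, h𝒵, h 𝒵 h𝒵⟩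

end Pool.Agent.Results.MP_467fc0_an.WeylCharacteristicFactor
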